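import Pool.Agent.helper61.CSW.W.SpecW
import Pool.Agent.helper92.MP.MI

/-!
# csw:ERC (MP_70a088_an, class S): the error of a cycle (helper99)
-/

set_option autoImplicit false

open Complex Metric Set Filter Topology MeasureTheory
open YPPS (fd fdd pre TT CV IsCyc rho Exact)
open MPS (BB)
open Pool.Agent.helper98.ILF (juliaSet fatouSet)

noncomputable section

open CSS (SE SV JJ)

namespace YW

theorem ERC_RS (Q : Finset ℂ) (c : ℂ → ℂ) (x : ℂ) (R : ℝ) : IntegrableOn (RS Q c) (ball x R) := by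
  unfold RS
  refine integrable_finsetSum _ fun e _ => ?_
  exact MPS.MI_pole (c e) e x R

theorem ERC (hTD2 : TD2_stmt) (hQIN : QIN_stmt) (hTIN : CSS.TIN_stmt) (hTRM : CSS.TRM_stmt) : ERC_stmt := by
  classical
  intro f X k _ b g c₁ c₂ hQ
  have hf1 : fd f X.p₁ ≠ 0 := by
    intro h
    have := X.rep1
    rw [h, norm_zero] at this
    linarith
  have hf2 : fd f X.p₂ ≠ 0 := by
    intro h
    have := X.rep2
    rw [h, norm_zero] at this
    linarith
  -- the double pole theorem
  let A : ZMod k ⊕ Bool → ℂ := Sum.elim (fun _ => 1) (fun _ => 0)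
  let G : ZMod k ⊕ Bool → ℂ := Sum.elim g (fun l => cond l c₁ c₂)
  let p : ZMod k ⊕ Bool → ℂ := Sum.elim b (fun l => cond l X.p₁ X.p₂)
  obtain ⟨σ, hσ⟩ := hTD2 f (ZMod k ⊕ Bool) Finset.univ A G p
    (by
      intro i _
      rcases i with i | l
      · exact hQ.cyc.ne0 i
      · cases l
        · exact hf2
        · exact hf1)
    (by
      rw [Fintype.sum_sum_type, Fintype.sum_bool]
      have := hQ.m0
      simp only [G, Sum.elim_inl, Sum.elim_inr, cond_true, cond_false]
      rw [← add_assoc]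
      exact this)
    (by
      rw [Fintype.sum_sum_type, Fintype.sum_bool]
      have := hQ.m1
      simp only [A, G, p, Sum.elim_inl, Sum.elim_inr, cond_true, cond_false, zero_add]
      rw [← add_assoc]
      exact this)
  have hq : (fun x => ∑ i, (A i / (x - p i) ^ 2 + G i / (x - p i))) = qc X b g c₁ c₂ := by
    funext x
    rw [Fintype.sum_sum_type, Fintype.sum_bool]
    simp only [A, G, p, Sum.elim_inl, Sum.elim_inr, cond_true, cond_false, zero_div, zero_add]
    rfl
  rw [hq] at hσ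
  -- the residues
  let c : ℂ → ℂ := fun e => if e = X.p₁ then c₁ * (1 / fd f X.p₁ - 1) else if e = X.p₂ then c₂ * (1 / fd f X.p₂ - 1) else σ e
  have hc1 : c X.p₁ = c₁ * (1 / fd f X.p₁ - 1) := if_pos rfl
  have hc2 : c X.p₂ = c₂ * (1 / fd f X.p₂ - 1) := by
    show (if X.p₂ = X.p₁ then _ else if X.p₂ = X.p₂ then _ else _) = _
    rw [if_neg (Ne.symm X.ne), if_pos rfl]
  have hcv : ∀ v ∈ SV f, c v = σ v := by
    intro v hv
    show (if v = X.p₁ then _ else if v = X.p₂ then _ else _) = _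
    rw [if_neg (by rintro rfl; exact X.ns1 hv), if_neg (by rintro rfl; exact X.ns2 hv)]
  have hRS : ∀ z, RS (ES f X) c z = c₁ * (1 / fd f X.p₁ - 1) / (z - X.p₁) + (c₂ * (1 / fd f X.p₂ - 1) / (z - X.p₂) + ∑ v ∈ SV f, σ v / (z - v)) := by
    intro z
    unfold RS ES
    rw [Finset.sum_insert, Finset.sum_insert X.ns2, hc1, hc2]
    · congr 2
      exact Finset.sum_congr rfl fun v hv => by rw [hcv v hv]
    · rw [Finset.mem_insert, not_or]
      exact ⟨X.ne, X.ns1⟩
  -- the finite bad set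
  have hbad : (↑(SV f) ∪ (range b ∪ {X.p₁, X.p₂}) : Set ℂ).Finite :=
    (SV f).finite_toSet.union ((finite_range b).union ((finite_singleton _).insert _))
  have heq0 : ∀ z, z ∉ (↑(SV f) ∪ (range b ∪ {X.p₁, X.p₂}) : Set ℂ) →
      TT f (qc X b g c₁ c₂) z - qc X b g c₁ c₂ z = RS (ES f X) c z := by
    intro z hz
    simp only [mem_union, not_or, mem_insert_iff, mem_singleton_iff, Finset.mem_coe] at hz
    obtain ⟨hz1, hz2, hz3, hz4⟩ := hz
    have h1 := hσ z (by rw [SPPS.mem_CV]; exact hz1) (by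
      intro i _
      rcases i with i | l
      · intro h
        apply hz2
        exact ⟨i + 1, by rw [h]; exact (hQ.cyc.step i).symm⟩
      · cases l
        · intro h
          exact hz4 (h.trans X.fix2)
        · intro h
          exact hz3 (h.trans X.fix1))
    rw [Fintype.sum_sum_type, Fintype.sum_bool] at h1
    simp only [A, G, p, Sum.elim_inl, Sum.elim_inr, cond_true, cond_false, zero_div, zero_add, zero_mul, sub_zero] at h1
    rw [X.fix1, X.fix2] at h1
    have h2 : ∑ i : ZMod k, (1 / (z - f.eval (b i)) ^ 2 + (g i / fd f (b i) - 1 * fdd f (b i) / fd f (b i) ^ 2) / (z - f.eval (b i))) = BB b g z := by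
      unfold BB
      rw [← Equiv.sum_comp (Equiv.addRight (1 : ZMod k)) (fun i => 1 / (z - b i) ^ 2 + g i / (z - b i))]
      refine Finset.sum_congr rfl fun i _ => ?_
      rw [Equiv.coe_addRight, hQ.cyc.step i, hQ.ex i, one_mul]
    rw [h2] at h1
    rw [h1, hRS z]
    unfold qc rr
    have h3 : z - X.p₁ ≠ 0 := sub_ne_zero.2 hz3
    have h4 : z - X.p₂ ≠ 0 := sub_ne_zero.2 hz4
    ring
  have heq : ∀ᵐ z : ℂ, TT f (qc X b g c₁ c₂) z - qc X b g c₁ c₂ z = RS (ES f X) c z := by
    filter_upwards [hbad.countable.ae_notMem volume] with z hz using heq0 z hz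
  refine ⟨c, ⟨?_, heq, hc1, hc2⟩⟩
  -- the moments
  obtain ⟨-, -, hI⟩ := hQIN f X k b g c₁ c₂ hQ
  obtain ⟨hm1, hm2, hi1, hi2⟩ := hI (fun _ => 1) (fun _ => one_pos) 1 one_pos
  have hB : Integrable (indicator (FKE f b (fun _ => 1) 1) (qc X b g c₁ c₂)) := (integrable_indicator_iff hm2).2 hi2
  obtain ⟨-, hT, -⟩ := hTIN f _ hB
  have hT2 : IntegrableOn (TT f (qc X b g c₁ c₂)) (KE b (fun _ => 1) 1) := by
    refine (hT.integrableOn (s := KE b (fun _ => 1) 1)).congr_fun ?_ hm1
    intro z hz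
    show (∑' y : pre f z, _) = ∑' y : pre f z, _
    refine tsum_congr fun y => ?_
    have hy : (y : ℂ) ∈ FKE f b (fun _ => 1) 1 := by
      show f.eval (y : ℂ) ∈ KE b (fun _ => 1) 1
      have : f.eval (y : ℂ) = z := y.2
      rw [this]
      exact hz
    rw [indicator_of_mem hy]
  have hK : IntegrableOn (RS (ES f X) c) (KE b (fun _ => 1) 1) := by
    refine (hT2.sub hi1).congr (ae_restrict_of_ae ?_)
    filter_upwards [heq] with z hz using hz
  have hKc : IntegrableOn (RS (ES f X) c) (KE b (fun _ => 1) 1)ᶜ := by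
    obtain ⟨M, hM⟩ := (finite_range b).isBounded.exists_norm_le
    refine (ERC_RS (ES f X) c 0 (M + 1)).mono_set ?_
    intro z hz
    simp only [KE, mem_compl_iff, mem_ofPred_eq, not_forall, not_le] at hz
    obtain ⟨i, hi⟩ := hz
    rw [mem_ball, dist_zero_right]
    have h1 := hM (b i) (mem_range_self i)
    have h2 : ‖z‖ ≤ ‖z - b i‖ + ‖b i‖ := by
      calc ‖z‖ = ‖(z - b i) + b i‖ := by ring_nf
        _ ≤ _ := norm_add_le _ _
    linarith
  have hint : Integrable (RS (ES f X) c) := by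
    rw [← integrableOn_univ, ← union_compl_self (KE b (fun _ => 1) 1)]
    exact hK.union hKc
  exact hTRM ℂ (ES f X) c (fun e => e) hint

end YW
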